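import Pool.Agent.H51.EV.Main

/-!
# The operator of the second kind of the extremal tensors
-/

set_option autoImplicit false

open scoped BigOperators

namespace Pool.Agent.H51.EV

open Hopf6 Pool.Agent.W714.HE Pool.Agent.W714.ES Pool.Agent.H31EE

/-- the permutation of the complex structure -/
def sg : Fin 6 → Fin 6 := ![1, 0, 3, 2, 5, 4]

/-- the signs of the complex structure -/
def ep : Fin 6 → ℝ := ![-1, 1, -1, 1, -1, 1]

theorem w6_bb (i j : Fin 6) : w6 (be i) (be j) = if j = sg i then ep i else 0 := by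
  unfold w6
  simp only [be_apply]
  fin_cases i <;> fin_cases j <;> simp [sg, ep]

theorem in_bb (i j : Fin 6) : inner ℝ (be i) (be j) = (if j = i then (1 : ℝ) else 0) := by
  rw [in_be, be_apply]

theorem Rex_bb (p q : ℝ) (i j k l : Fin 6) : Rex p q (be i) (be j) (be k) (be l) =
    p * ((if k = i then (1 : ℝ) else 0) * (if l = j then 1 else 0)
      - (if l = i then 1 else 0) * (if k = j then 1 else 0))
    - q / 3 * ((if k = sg i then ep i else 0) * (if l = sg j then ep j else 0)
      - (if l = sg i then ep i else 0) * (if k = sg j then ep j else 0)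
      + 2 * ((if j = sg i then ep i else 0) * (if l = sg k then ep k else 0))) := by
  unfold Rex
  simp only [w6_bb, in_bb]

theorem second_Rex (p q : ℝ) (h : Fin 6 → Fin 6 → ℝ) : second be (Rex p q) h =
    p * (∑ i, ∑ j, h i j * h j i - (∑ i, h i i) * ∑ i, h i i)
    - q / 3 * (∑ i, ∑ j, ep i * ep j * (h i (sg j) * h j (sg i))
      - (∑ i, ep i * h i (sg i)) * (∑ i, ep i * h i (sg i))
      + 2 * ∑ i, ∑ k, ep i * ep k * (h i (sg k) * h (sg i) k)) := by
  have e1 : second be (Rex p q) h =
      p * (∑ i, ∑ j, ∑ k, ∑ l, (if k = i then (1 : ℝ) else 0) * (if l = j then 1 else 0)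
          * (h i l * h j k)
        - ∑ i, ∑ j, ∑ k, ∑ l, (if l = i then (1 : ℝ) else 0) * (if k = j then 1 else 0)
          * (h i l * h j k))
      - q / 3 * (∑ i, ∑ j, ∑ k, ∑ l, (if k = sg i then ep i else 0) * (if l = sg j then ep j else 0)
          * (h i l * h j k)
        - ∑ i, ∑ j, ∑ k, ∑ l, (if l = sg i then ep i else 0) * (if k = sg j then ep j else 0)
          * (h i l * h j k)
        + 2 * ∑ i, ∑ k, ∑ j, ∑ l, (if j = sg i then ep i else 0) * (if l = sg k then ep k else 0)
          * (h i l * h j k)) := by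
    have e2 : ∑ i, ∑ k, ∑ j, ∑ l, (if j = sg i then ep i else 0) * (if l = sg k then ep k else 0)
          * (h i l * h j k) = ∑ i, ∑ j, ∑ k, ∑ l, (if j = sg i then ep i else 0)
          * (if l = sg k then ep k else 0) * (h i l * h j k) :=
      Finset.sum_congr rfl fun i _ => Finset.sum_comm
    rw [e2]
    unfold second
    simp only [Finset.mul_sum, ← Finset.sum_sub_distrib, ← Finset.sum_add_distrib]
    refine Finset.sum_congr rfl fun i _ => Finset.sum_congr rfl fun j _ =>
      Finset.sum_congr rfl fun k _ => Finset.sum_congr rfl fun l _ => ?_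
    rw [Rex_bb]
    ring
  rw [e1]
  have c1 : ∀ (F : Fin 6 → Fin 6 → ℝ) (s t : ℝ) (u v : Fin 6),
      ∑ k, ∑ l, (if k = u then s else 0) * (if l = v then t else 0) * F k l = s * t * F u v := by
    intro F s t u v
    rw [Finset.sum_eq_single u]
    · rw [Finset.sum_eq_single v]
      · simp
      · intro l _ hl
        rw [if_neg hl]
        ring
      · simp
    · intro k _ hk
      rw [if_neg hk]
      simp
    · simp
  have c2 : ∀ (F : Fin 6 → Fin 6 → ℝ) (s t : ℝ) (u v : Fin 6),
      ∑ k, ∑ l, (if l = u then s else 0) * (if k = v then t else 0) * F k l = s * t * F v u := by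
    intro F s t u v
    rw [Finset.sum_comm]
    exact c1 (fun l k => F k l) s t u v
  have d1 : ∀ i j, ∑ k, ∑ l, (if k = i then (1 : ℝ) else 0) * (if l = j then 1 else 0)
          * (h i l * h j k) = h i j * h j i := by
    intro i j
    rw [c1 (fun k l => h i l * h j k)]
    ring
  have d2 : ∀ i j, ∑ k, ∑ l, (if l = i then (1 : ℝ) else 0) * (if k = j then 1 else 0)
          * (h i l * h j k) = h i i * h j j := by
    intro i j
    rw [c2 (fun k l => h i l * h j k)]
    ring
  have d3 : ∀ i j, ∑ k, ∑ l, (if k = sg i then ep i else 0) * (if l = sg j then ep j else 0)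
          * (h i l * h j k) = ep i * ep j * (h i (sg j) * h j (sg i)) := by
    intro i j
    rw [c1 (fun k l => h i l * h j k)]
  have d4 : ∀ i j, ∑ k, ∑ l, (if l = sg i then ep i else 0) * (if k = sg j then ep j else 0)
          * (h i l * h j k) = (ep i * h i (sg i)) * (ep j * h j (sg j)) := by
    intro i j
    rw [c2 (fun k l => h i l * h j k)]
    ring
  have d5 : ∀ i k, ∑ j, ∑ l, (if j = sg i then ep i else 0) * (if l = sg k then ep k else 0)
          * (h i l * h j k) = ep i * ep k * (h i (sg k) * h (sg i) k) := by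
    intro i k
    rw [c1 (fun j l => h i l * h j k)]
  simp only [d1, d2, d3, d4, d5, ← Finset.mul_sum, ← Finset.sum_mul]

theorem Rex_second {p q : ℝ} (hq : 0 ≤ q) : SecondGE be (Rex p q) (p - q) := by
  intro h hs ht
  rw [second_Rex, ht]
  have h1 : ∑ i, ∑ j, h i j * h j i = ∑ i, ∑ j, h i j ^ 2 :=
    Finset.sum_congr rfl fun i _ => Finset.sum_congr rfl fun j _ => by
      rw [hs j i]
      ring
  have h2 : ∑ i, ep i * h i (sg i) = 0 := by
    simp only [Fin.sum_univ_six, ep, sg]
    simp
    linarith [hs 0 1, hs 2 3, hs 4 5]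
  have h3 : ∑ i, ∑ j, h i j ^ 2 - 1 / 3 * (∑ i, ∑ j, ep i * ep j * (h i (sg j) * h j (sg i))
      - 0 * 0 + 2 * ∑ i, ∑ k, ep i * ep k * (h i (sg k) * h (sg i) k)) =
      1 / 2 * ∑ i, ∑ l, (h i l + ep i * ep l * h (sg i) (sg l)) ^ 2 := by
    have s10 := hs 1 0
    have s20 := hs 2 0
    have s30 := hs 3 0
    have s40 := hs 4 0
    have s50 := hs 5 0
    have s21 := hs 2 1
    have s31 := hs 3 1
    have s41 := hs 4 1
    have s51 := hs 5 1
    have s32 := hs 3 2
    have s42 := hs 4 2
    have s52 := hs 5 2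
    have s43 := hs 4 3
    have s53 := hs 5 3
    have s54 := hs 5 4
    simp only [Fin.sum_univ_six, ep, sg]
    simp
    simp only [s10, s20, s30, s40, s50, s21, s31, s41, s51, s32, s42, s52, s43, s53, s54]
    ring
  have h4 : 0 ≤ ∑ i, ∑ l, (h i l + ep i * ep l * h (sg i) (sg l)) ^ 2 := by positivity
  rw [h1, h2]
  have h5 : 0 ≤ q * (1 / 2 * ∑ i, ∑ l, (h i l + ep i * ep l * h (sg i) (sg l)) ^ 2) :=
    mul_nonneg hq (by positivity)
  rw [← h3] at h5
  linarith

/-- monotonicity -/
theorem SecondGE.mono {V : Type*} [NormedAddCommGroup V] [InnerProductSpace ℝ V]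
    {e : OrthonormalBasis (Fin 6) ℝ V} {R : V → V → V → V → ℝ} {b b' : ℝ}
    (h : SecondGE e R b) (hb : b' ≤ b) : SecondGE e R b' := by
  intro k hk ht
  refine (mul_le_mul_of_nonneg_right hb (by positivity)).trans (h k hk ht)

theorem pol_eq (δ : ℝ) : pol ((5 + δ) / 4) / 135 = 1 + (1 + δ) ^ 2 / 3 - 11 / 27 * (1 + δ) ^ 3 := by
  unfold pol
  ring

end Pool.Agent.H51.EV
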