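import Pool.Agent.H51.EV.Vec

/-!
# The finite inequality: sectional curvatures of a frame with a quadratic form constraint
-/

set_option autoImplicit false

open scoped BigOperators Matrix MatrixOrder ComplexOrder

namespace Pool.Agent.H51.EV

theorem exists_gram {ι : Type} [Fintype ι] [DecidableEq ι] (Z : Matrix ι ι ℝ)
    (hs : ∀ i j, Z j i = Z i j) (hp : ∀ x : ι → ℝ, 0 ≤ ∑ i, ∑ j, x i * x j * Z i j) :
    ∃ g : ι → EuclideanSpace ℝ ι, ∀ i j, inner ℝ (g i) (g j) = Z i j := by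
  have hZ : Z.PosSemidef := by
    refine Matrix.PosSemidef.of_dotProduct_mulVec_nonneg ?_ ?_
    · ext i j
      simp [Matrix.conjTranspose_apply, hs i j]
    · intro x
      have h1 : star x ⬝ᵥ (Z *ᵥ x) = ∑ i, ∑ j, x i * x j * Z i j := by
        simp only [dotProduct, Matrix.mulVec, Pi.star_apply, star_trivial, Finset.mul_sum]
        exact Finset.sum_congr rfl fun i _ => Finset.sum_congr rfl fun j _ => by ring
      rw [h1]
      exact hp x
  obtain ⟨B, hB⟩ := CStarAlgebra.nonneg_iff_eq_star_mul_self.mp hZ.nonneg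
  refine ⟨fun i => WithLp.toLp 2 fun r => B r i, fun i j => ?_⟩
  have h2 := congrFun (congrFun hB i) j
  rw [h2, Matrix.star_eq_conjTranspose, Matrix.mul_apply, PiLp.inner_apply]
  refine Finset.sum_congr rfl fun r _ => ?_
  simp [Matrix.conjTranspose_apply, mul_comm]

/-- the quadratic form of the constraint -/
noncomputable def Zm (s : ℝ) (d : Fin 5 → ℝ) (K : Fin 5 → Fin 5 → ℝ) : Matrix (Option (Fin 5)) (Option (Fin 5)) ℝ
  | none, none => 5 / 6 * s
  | none, some i => -(s / 6) - d i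
  | some i, none => -(s / 6) - d i
  | some i, some j => if i = j then 5 / 6 * s else 1 - s / 6 - K i j

theorem Zm_form (s : ℝ) (d : Fin 5 → ℝ) (K : Fin 5 → Fin 5 → ℝ) (hd : ∀ i, K i i = 0)
    (x : Option (Fin 5) → ℝ) :
    ∑ i, ∑ j, x i * x j * Zm s d K i j =
      (s - 1) * (x none ^ 2 + ∑ i, x (some i) ^ 2 - (x none + ∑ i, x (some i)) ^ 2 / 6)
        + 5 / 6 * (x none + ∑ i, x (some i)) ^ 2
        - (2 * x none * ∑ i, x (some i) * (1 + d i)
          + ∑ i, ∑ j, x (some i) * x (some j) * K i j) := by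
  simp only [Fintype.sum_option, Zm]
  have h1 : ∀ i j : Fin 5, x (some i) * x (some j) * (if i = j then 5 / 6 * s else 1 - s / 6 - K i j)
      = x (some i) * x (some j) * (1 - s / 6) - x (some i) * x (some j) * K i j
        + (if i = j then x (some i) * x (some j) * (s - 1) else 0) := by
    intro i j
    by_cases h : i = j
    · subst h
      rw [if_pos rfl, if_pos rfl, hd]
      ring
    · rw [if_neg h, if_neg h]
      ring
  simp only [h1, Finset.sum_add_distrib, Finset.sum_sub_distrib]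
  have h2 : ∑ i : Fin 5, ∑ j : Fin 5, x (some i) * x (some j) * (1 - s / 6) =
      (∑ i : Fin 5, x (some i)) ^ 2 * (1 - s / 6) := by
    rw [sq, Finset.sum_mul_sum, Finset.sum_mul]
    exact Finset.sum_congr rfl fun i _ => by rw [Finset.sum_mul]
  have h3 : ∑ i : Fin 5, ∑ j : Fin 5, (if i = j then x (some i) * x (some j) * (s - 1) else 0) =
      (∑ i : Fin 5, x (some i) ^ 2) * (s - 1) := by
    rw [Finset.sum_mul]
    refine Finset.sum_congr rfl fun i _ => ?_
    rw [Finset.sum_ite_eq, if_pos (Finset.mem_univ i)]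
    ring
  rw [h2, h3]
  simp only [Fin.sum_univ_five]
  ring

theorem fin_two {s : ℝ} (hs : 0 < s) (l : Fin 5 → ℝ) (K : Fin 5 → Fin 5 → ℝ)
    (hsym : ∀ i j, K i j = K j i) (hd : ∀ i, K i i = 0) (hrow : ∀ i, ∑ j, K i j = 5 - l i)
    (hl : ∑ i, l i = 5)
    (H : ∀ (a0 : ℝ) (a : Fin 5 → ℝ), 2 * a0 * ∑ i, a i * l i + ∑ i, ∑ j, a i * a j * K i j ≤
      (s - 1) * (a0 ^ 2 + ∑ i, a i ^ 2 - (a0 + ∑ i, a i) ^ 2 / 6)
        + 5 / 6 * (a0 + ∑ i, a i) ^ 2) :
    135 + (36 - 44 * s) * (∑ i, l i ^ 2 - 5) ≤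
        1875 - 300 * ∑ i, l i ^ 2 + 80 * ∑ i, l i ^ 3 - 32 * ∑ i, ∑ j, l i * l j * K i j ∧
      135 + 36 * (∑ i, l i ^ 2 - 5) - 55 * s ^ 3 ≤
        1875 - 300 * ∑ i, l i ^ 2 + 80 * ∑ i, l i ^ 3 - 32 * ∑ i, ∑ j, l i * l j * K i j := by
  set t : Fin 5 → ℝ := fun i => (l i - 1) / s with ht
  have hlt : ∀ i, l i = 1 + s * t i := fun i => by
    rw [ht]
    field_simp
    ring
  have ht0 : ∑ i, t i = 0 := by
    have h1 : ∑ i, l i = 5 + s * ∑ i, t i := by
      rw [Finset.sum_congr rfl fun i _ => hlt i, Finset.sum_add_distrib, ← Finset.mul_sum]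
      simp
    rw [hl] at h1
    have h2 : s * ∑ i, t i = 0 := by linarith
    exact (mul_eq_zero.1 h2).resolve_left hs.ne'
  have htl : ∀ i, -1 ≤ t i := by
    intro i
    have h1 := H 1 (fun j => if j = i then -1 else 0)
    simp only [ite_mul, neg_mul, one_mul, zero_mul, Finset.sum_ite_eq', Finset.mem_univ, if_true,
      mul_ite, mul_neg, mul_one, mul_zero, Finset.sum_neg_distrib, ite_pow] at h1
    norm_num at h1
    rw [hd i] at h1
    have h2 : -1 - s * t i ≤ s - 1 := by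
      rw [hlt i] at h1
      linarith
    nlinarith
  -- the vectors
  obtain ⟨g, hg⟩ := exists_gram (Zm s (fun i => s * t i) K) (by
    intro i j
    rcases i with _ | i <;> rcases j with _ | j
    · rfl
    · rfl
    · rfl
    · simp only [Zm]
      by_cases h : i = j
      · subst h
        rfl
      · rw [if_neg h, if_neg (Ne.symm h), hsym]) (by
    intro x
    rw [Zm_form s _ K hd x]
    have := H (x none) (fun i => x (some i))
    simp only [hlt] at this
    linarith)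
  have hnorm : ∀ x : Option (Fin 5) → ℝ, ‖∑ p, x p • g p‖ ^ 2 =
      (s - 1) * (x none ^ 2 + ∑ i, x (some i) ^ 2 - (x none + ∑ i, x (some i)) ^ 2 / 6)
        + 5 / 6 * (x none + ∑ i, x (some i)) ^ 2
        - (2 * x none * ∑ i, x (some i) * l i
          + ∑ i, ∑ j, x (some i) * x (some j) * K i j) := by
    intro x
    have h1 := Zm_form s (fun i => s * t i) K hd x
    simp only [← hlt] at h1
    rw [← h1, ← real_inner_self_eq_norm_sq]
    simp only [sum_inner, inner_sum, real_inner_smul_left, real_inner_smul_right, hg]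
    rw [Finset.sum_comm]
    exact Finset.sum_congr rfl fun p _ => Finset.sum_congr rfl fun q _ => by ring
  have hgsum : g none + ∑ i : Fin 5, g (some i) = 0 := by
    have h1 := hnorm fun _ => 1
    have h2 : ∑ p, (1 : ℝ) • g p = g none + ∑ i : Fin 5, g (some i) := by
      simp only [one_smul, Fintype.sum_option]
    rw [h2] at h1
    have h3 : ∑ i, ∑ j, (1 : ℝ) * 1 * K i j = 20 := by
      have : ∀ i, ∑ j, (1 : ℝ) * 1 * K i j = 5 - l i := fun i => by
        rw [← hrow i]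
        exact Finset.sum_congr rfl fun j _ => by ring
      simp only [this, Finset.sum_sub_distrib, hl]
      simp
      norm_num
    have h4 : ∑ i, (1 : ℝ) * l i = 5 := by rw [← hl]; exact Finset.sum_congr rfl fun i _ => by ring
    rw [h3, h4] at h1
    simp at h1
    have h5 : ‖g none + ∑ i : Fin 5, g (some i)‖ ^ 2 = 0 := by
      rw [h1]
      ring
    exact norm_eq_zero.1 (pow_eq_zero_iff (two_ne_zero) |>.1 h5)
  let v : Fin 5 → EuclideanSpace ℝ (Option (Fin 5)) :=
    fun i => (Real.sqrt s)⁻¹ • (g (some i) + (1 / 5 + 6 / 5 * t i) • g none)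
  have hsq : Real.sqrt s ^ 2 = s := Real.sq_sqrt hs.le
  have hr0 : 0 < Real.sqrt s := Real.sqrt_pos.2 hs
  have hvs : ∑ i, v i = 0 := by
    simp only [v, ← Finset.smul_sum, Finset.sum_add_distrib, ← Finset.sum_smul, ← Finset.mul_sum,
      ht0]
    have : (∑ i : Fin 5, g (some i)) + ((∑ _ : Fin 5, (1 / 5 : ℝ)) + 6 / 5 * 0) • g none = 0 := by
      have h1 : ((∑ _ : Fin 5, (1 / 5 : ℝ)) + 6 / 5 * 0) = 1 := by
        simp
      rw [h1, one_smul, add_comm]
      exact hgsum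
    rw [this, smul_zero]
  have hvn : ∀ i, ‖v i‖ ^ 2 = (1 + t i) * (4 - 6 * t i) / 5 := by
    intro i
    simp only [v]
    rw [norm_smul, mul_pow, norm_add_sq_real, norm_smul, mul_pow, inner_smul_right,
      ← real_inner_self_eq_norm_sq (g (some i)), ← real_inner_self_eq_norm_sq (g none), hg, hg, hg,
      norm_inv, inv_pow, Real.norm_eq_abs, sq_abs, Real.norm_eq_abs, sq_abs, hsq]
    simp only [Zm, if_true]
    field_simp
    ring
  have hvt : s * ‖∑ i, t i • v i‖ ^ 2 + 6 / 5 * s * (∑ i, t i ^ 2) ^ 2 =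
      s * (∑ i, t i ^ 2) - (∑ i, ∑ j, t i * t j * K i j + ∑ i, t i ^ 2) := by
    have h1 : (Real.sqrt s) • ∑ i, t i • v i =
        ∑ i, t i • g (some i) + (6 / 5 * ∑ i, t i ^ 2) • g none := by
      simp only [v, Finset.smul_sum, smul_smul]
      have h2 : ∀ i, (Real.sqrt s * (t i * (Real.sqrt s)⁻¹)) • (g (some i) + (1 / 5 + 6 / 5 * t i) • g none)
          = t i • g (some i) + (1 / 5 * t i + 6 / 5 * t i ^ 2) • g none := by
        intro i
        have h3 : Real.sqrt s * (t i * (Real.sqrt s)⁻¹) = t i := by field_simp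
        rw [h3, smul_add, smul_smul]
        congr 2
        ring
      rw [Finset.sum_congr rfl fun i _ => h2 i, Finset.sum_add_distrib, ← Finset.sum_smul,
        Finset.sum_add_distrib, ← Finset.mul_sum, ← Finset.mul_sum, ht0, mul_zero, zero_add]
    have h4 : s * ‖∑ i, t i • v i‖ ^ 2 = ‖(Real.sqrt s) • ∑ i, t i • v i‖ ^ 2 := by
      rw [norm_smul, mul_pow, Real.norm_eq_abs, sq_abs, hsq]
    have h5 : ∑ i, t i • g (some i) + (6 / 5 * ∑ i, t i ^ 2) • g none =
        ∑ p, (fun p : Option (Fin 5) => Option.elim p (6 / 5 * ∑ i, t i ^ 2) t) p • g p := by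
      rw [Fintype.sum_option, add_comm]
      rfl
    rw [h4, h1, h5, hnorm]
    simp only [Option.elim]
    have h6 : ∑ i, t i * l i = s * ∑ i, t i ^ 2 := by
      rw [Finset.mul_sum, ← add_zero (∑ i, s * t i ^ 2), ← ht0, ← Finset.sum_add_distrib]
      exact Finset.sum_congr rfl fun i _ => by rw [hlt]; ring
    rw [h6, ht0]
    ring
  have hS2 : ∑ i, l i ^ 2 = 5 + s ^ 2 * ∑ i, t i ^ 2 := by
    have : ∀ i, l i ^ 2 = 1 + 2 * s * t i + s ^ 2 * t i ^ 2 := fun i => by rw [hlt]; ring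
    simp only [this, Finset.sum_add_distrib, ← Finset.mul_sum, ht0]
    simp
  have hS3 : ∑ i, l i ^ 3 = 5 + 3 * s ^ 2 * ∑ i, t i ^ 2 + s ^ 3 * ∑ i, t i ^ 3 := by
    have : ∀ i, l i ^ 3 = 1 + 3 * s * t i + 3 * s ^ 2 * t i ^ 2 + s ^ 3 * t i ^ 3 := fun i => by
      rw [hlt]; ring
    simp only [this, Finset.sum_add_distrib, ← Finset.mul_sum, ht0]
    simp
  have hY : ∑ i, ∑ j, l i * l j * K i j = 20 - 2 * s ^ 2 * ∑ i, t i ^ 2
      + s ^ 2 * ∑ i, ∑ j, t i * t j * K i j := by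
    have h1 : ∀ i j, l i * l j * K i j = K i j + s * (t i * K i j) + s * (t j * K i j)
        + s ^ 2 * (t i * t j * K i j) := fun i j => by rw [hlt i, hlt j]; ring
    have h2 : ∑ i, ∑ j, t i * K i j = -(s * ∑ i, t i ^ 2) := by
      have : ∀ i, ∑ j, t i * K i j = 4 * t i - s * t i ^ 2 := fun i => by
        rw [← Finset.mul_sum, hrow, hlt]
        ring
      simp only [this, Finset.sum_sub_distrib, ← Finset.mul_sum, ht0]
      ring
    have h3 : ∑ i, ∑ j, t j * K i j = -(s * ∑ i, t i ^ 2) := by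
      rw [← h2, Finset.sum_comm]
      exact Finset.sum_congr rfl fun i _ => Finset.sum_congr rfl fun j _ => by rw [hsym]
    have h4 : ∑ i, ∑ j, K i j = 20 := by
      simp only [hrow, Finset.sum_sub_distrib, hl]
      simp
      norm_num
    have hm : ∀ (c : ℝ) (F : Fin 5 → Fin 5 → ℝ), ∑ i, ∑ j, c * F i j = c * ∑ i, ∑ j, F i j := by
      intro c F
      rw [Finset.mul_sum]
      exact Finset.sum_congr rfl fun i _ => by rw [Finset.mul_sum]
    simp only [h1, Finset.sum_add_distrib]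
    rw [hm s fun i j => t i * K i j, hm s fun i j => t j * K i j,
      hm (s ^ 2) fun i j => t i * t j * K i j, h2, h3, h4]
    ring
  have hN0 := sq_nonneg ‖∑ i, t i • v i‖
  have hk := key t ht0 htl v hvs hvn
  have hn2 := num2 t ht0 htl
  rw [hS2, hS3, hY]
  set T2 : ℝ := ∑ i, t i ^ 2
  set T3 : ℝ := ∑ i, t i ^ 3
  set Y : ℝ := ∑ i, ∑ j, t i * t j * K i j
  set N : ℝ := ‖∑ i, t i • v i‖ ^ 2
  have hYe : Y = s * T2 - T2 - s * N - 6 / 5 * s * T2 ^ 2 := by linarith
  have hs3 : 0 < s ^ 3 := by positivity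
  constructor
  · have e1 : 1875 - 300 * (5 + s ^ 2 * T2) + 80 * (5 + 3 * s ^ 2 * T2 + s ^ 3 * T3)
        - 32 * (20 - 2 * s ^ 2 * T2 + s ^ 2 * Y) = 135 + (36 - 44 * s) * (5 + s ^ 2 * T2 - 5)
        + 4 * s ^ 3 * (20 * T3 + 3 * T2 + 48 / 5 * T2 ^ 2 + 8 * N) := by
      rw [hYe]
      ring
    rw [e1]
    have := mul_nonneg hs3.le hk
    linarith
  · have e1 : 1875 - 300 * (5 + s ^ 2 * T2) + 80 * (5 + 3 * s ^ 2 * T2 + s ^ 3 * T3)
        - 32 * (20 - 2 * s ^ 2 * T2 + s ^ 2 * Y) = 135 + 36 * (5 + s ^ 2 * T2 - 5) - 55 * s ^ 3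
        + 4 * s ^ 3 * (20 * T3 - 8 * T2 + 48 / 5 * T2 ^ 2 + 55 / 4 + 8 * N) := by
      rw [hYe]
      ring
    rw [e1]
    have := mul_nonneg hs3.le (show 0 ≤ 20 * T3 - 8 * T2 + 48 / 5 * T2 ^ 2 + 55 / 4 + 8 * N by
      linarith)
    linarith

end Pool.Agent.H51.EV
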