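import Pool.Agent.W714.ES.Main

/-!
# The bilinear form of the curvature operator of the second kind, in components
-/

set_option autoImplicit false

open scoped BigOperators

namespace Pool.Agent.H51.EV

open Hopf6 Pool.Agent.W714.HE

theorem anti' {R : Ten} (hR : IsCurv R) (a b c d : Fin 6) : R a b d c = - R a b c d := by
  have h2 := hR.pair a b c d
  have h3 := hR.anti c d a b
  have h4 := hR.pair a b d c
  linarith

/-- two-tensors -/
abbrev T2 : Type := Fin 6 → Fin 6 → ℝ

/-- the bilinear form `R_{acbd} h_{ab} k_{cd}` -/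
def FB (R : Ten) (h k : T2) : ℝ :=
  ∑ a, ∑ b, ∑ c, ∑ d, R a c b d * h a b * k c d

/-- the form is linear in the first argument -/
def FBl (R : Ten) (k : T2) : T2 →ₗ[ℝ] ℝ where
  toFun h := FB R h k
  map_add' h h' := by
    unfold FB
    simp only [← Finset.sum_add_distrib, Pi.add_apply]
    refine Finset.sum_congr rfl fun a _ => Finset.sum_congr rfl fun b _ =>
      Finset.sum_congr rfl fun c _ => Finset.sum_congr rfl fun d _ => ?_
    ring
  map_smul' t h := by
    unfold FB
    simp only [Finset.mul_sum, Pi.smul_apply, smul_eq_mul, RingHom.id_apply]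
    refine Finset.sum_congr rfl fun a _ => Finset.sum_congr rfl fun b _ =>
      Finset.sum_congr rfl fun c _ => Finset.sum_congr rfl fun d _ => ?_
    ring

theorem FBl_apply (R : Ten) (h k : T2) : FBl R k h = FB R h k := rfl

theorem FB_symm {R : Ten} (hR : IsCurv R) (h k : T2) : FB R h k = FB R k h := by
  unfold FB
  have p5 : ∀ F : Fin 6 → Fin 6 → Fin 6 → Fin 6 → ℝ,
      ∑ a, ∑ b, ∑ c, ∑ d, F a b c d = ∑ c, ∑ d, ∑ a, ∑ b, F a b c d := by
    intro F
    calc ∑ a, ∑ b, ∑ c, ∑ d, F a b c d = ∑ a, ∑ c, ∑ b, ∑ d, F a b c d :=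
          Finset.sum_congr rfl fun a _ => Finset.sum_comm
      _ = ∑ c, ∑ a, ∑ b, ∑ d, F a b c d := Finset.sum_comm
      _ = ∑ c, ∑ a, ∑ d, ∑ b, F a b c d := Finset.sum_congr rfl fun c _ =>
          Finset.sum_congr rfl fun a _ => Finset.sum_comm
      _ = ∑ c, ∑ d, ∑ a, ∑ b, F a b c d := Finset.sum_congr rfl fun c _ => Finset.sum_comm
  rw [p5]
  refine Finset.sum_congr rfl fun a _ => Finset.sum_congr rfl fun b _ =>
    Finset.sum_congr rfl fun c _ => Finset.sum_congr rfl fun d _ => ?_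
  rw [hR.anti a c d b, anti' hR a c b d]
  ring

/-- the identity as a two-tensor -/
def dI : T2 := fun a b => if a = b then 1 else 0

theorem FB_dI {R : Ten} (hR : IsCurv R) (hE : ∀ a b, Rc R a b = if a = b then 5 else 0) (k : T2) :
    FB R dI k = 5 * ∑ c, k c c := by
  rw [FB_symm hR]
  have h1 : ∀ a b, ∑ c, ∑ d, R a c b d * k a b * dI c d = Rc R a b * k a b := by
    intro a b
    unfold Rc
    rw [Finset.sum_mul]
    refine Finset.sum_congr rfl fun c _ => ?_
    rw [Finset.sum_eq_single c]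
    · simp [dI]
    · intro d _ hd
      simp [dI, Ne.symm hd]
    · simp
  unfold FB
  simp only [h1, hE]
  rw [Finset.mul_sum]
  refine Finset.sum_congr rfl fun a _ => ?_
  rw [Finset.sum_eq_single a]
  · simp
  · intro b _ hb
    simp [Ne.symm hb]
  · simp

/-- the operator of the second kind is at least `-δ` on traceless tensors -/
def Sec2 (R : Ten) (δ : ℝ) : Prop :=
  ∀ h : T2, (∀ a b, h a b = h b a) → ∑ a, h a a = 0 → FB R h h ≤ δ * ∑ a, ∑ b, h a b ^ 2

theorem sec2_all {R : Ten} (hR : IsCurv R) (hE : ∀ a b, Rc R a b = if a = b then 5 else 0)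
    {δ : ℝ} (hS : Sec2 R δ) (h : T2) (hs : ∀ a b, h a b = h b a) :
    FB R h h ≤ δ * (∑ a, ∑ b, h a b ^ 2 - (∑ a, h a a) ^ 2 / 6) + 5 / 6 * (∑ a, h a a) ^ 2 := by
  set t : ℝ := ∑ a, h a a with ht
  set k : T2 := h + (-(t / 6)) • dI with hk
  have hkd : ∀ a b, k a b = h a b - t / 6 * dI a b := fun a b => by
    simp only [hk, Pi.add_apply, Pi.smul_apply, smul_eq_mul]
    ring
  have hks : ∀ a b, k a b = k b a := fun a b => by
    rw [hkd, hkd, hs a b]
    simp [dI, eq_comm]
  have htr : ∑ a : Fin 6, dI a a = 6 := by simp [dI]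
  have hkt : ∑ a, k a a = 0 := by
    simp only [hkd, Finset.sum_sub_distrib, ← Finset.mul_sum, htr, ← ht]
    ring
  have h1 := hS k hks hkt
  have h2 : FB R k k = FB R h h - 5 / 6 * t ^ 2 := by
    have e1 : FB R k k = FB R h k + (-(t / 6)) * FB R dI k := by
      rw [← FBl_apply R k k, hk, map_add, map_smul, FBl_apply, FBl_apply, smul_eq_mul]
    have e2 : FB R h k = FB R h h + (-(t / 6)) * FB R dI h := by
      rw [FB_symm hR h k, ← FBl_apply R k h, hk, map_add, map_smul, FBl_apply, FBl_apply,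
        smul_eq_mul]
    rw [e1, e2, FB_dI hR hE, FB_dI hR hE, hkt, ← ht]
    ring
  have h3 : ∑ a, ∑ b, k a b ^ 2 = ∑ a, ∑ b, h a b ^ 2 - t ^ 2 / 6 := by
    have e1 : ∀ a b, k a b ^ 2 = h a b ^ 2 + (if a = b then t ^ 2 / 36 - t / 3 * h a b else 0) := by
      intro a b
      rw [hkd]
      unfold dI
      split_ifs <;> ring
    simp only [e1, Finset.sum_add_distrib]
    have e2 : ∀ a, ∑ b, (if a = b then t ^ 2 / 36 - t / 3 * h a b else 0) =
        t ^ 2 / 36 - t / 3 * h a a := by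
      intro a
      simp
    simp only [e2, Finset.sum_sub_distrib, ← Finset.mul_sum, ← ht]
    simp
    ring
  rw [h2, h3] at h1
  linarith

theorem FB_rank (R : Ten) (u v : Fin 6 → ℝ) :
    FB R (fun a b => u a * u b) (fun a b => v a * v b) = quad R u v := by
  unfold FB
  rw [quad_form]
  refine Finset.sum_congr rfl fun a _ => Finset.sum_congr rfl fun b _ => ?_
  simp only [Finset.mul_sum]
  refine Finset.sum_congr rfl fun c _ => Finset.sum_congr rfl fun d _ => ?_
  ring

/-- a sum of squares of vectors as a two-tensor -/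
def dg {ι : Type} [Fintype ι] (f : ι → Fin 6 → ℝ) (α : ι → ℝ) : T2 :=
  ∑ p, α p • (fun a b => f p a * f p b : T2)

theorem dg_apply {ι : Type} [Fintype ι] (f : ι → Fin 6 → ℝ) (α : ι → ℝ) (a b : Fin 6) :
    dg f α a b = ∑ p, α p * (f p a * f p b) := by
  unfold dg
  simp [Finset.sum_apply]

theorem FB_dg {ι : Type} [Fintype ι] {R : Ten} (hR : IsCurv R) (f : ι → Fin 6 → ℝ) (α : ι → ℝ) :
    FB R (dg f α) (dg f α) = ∑ p, ∑ q, α p * α q * quad R (f p) (f q) := by
  have e1 : ∀ k : T2, FB R (dg f α) k = ∑ p, α p * FB R (fun a b => f p a * f p b) k := by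
    intro k
    rw [← FBl_apply, dg, map_sum]
    refine Finset.sum_congr rfl fun p _ => ?_
    rw [map_smul, smul_eq_mul, FBl_apply]
  rw [e1]
  refine Finset.sum_congr rfl fun p _ => ?_
  rw [FB_symm hR, e1, Finset.mul_sum]
  refine Finset.sum_congr rfl fun q _ => ?_
  rw [FB_symm hR, FB_rank]
  ring

theorem dg_tr {ι : Type} [Fintype ι] (f : ι → Fin 6 → ℝ) (α : ι → ℝ)
    (h1 : ∀ p, ∑ a, f p a * f p a = 1) : ∑ a, dg f α a a = ∑ p, α p := by
  simp only [dg_apply]
  rw [Finset.sum_comm]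
  refine Finset.sum_congr rfl fun p _ => ?_
  rw [← Finset.mul_sum, h1, mul_one]

theorem dg_sq {ι : Type} [Fintype ι] [DecidableEq ι] (f : ι → Fin 6 → ℝ) (α : ι → ℝ)
    (h1 : ∀ p q, ∑ a, f p a * f q a = if p = q then 1 else 0) :
    ∑ a, ∑ b, dg f α a b ^ 2 = ∑ p, α p ^ 2 := by
  have e1 : ∀ a b, dg f α a b ^ 2 =
      ∑ p, ∑ q, (α p * α q) * ((f p a * f q a) * (f p b * f q b)) := by
    intro a b
    rw [dg_apply, sq, Finset.sum_mul_sum]
    exact Finset.sum_congr rfl fun p _ => Finset.sum_congr rfl fun q _ => by ring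
  simp only [e1]
  have e2 : ∑ a, ∑ b, ∑ p, ∑ q, (α p * α q) * ((f p a * f q a) * (f p b * f q b)) =
      ∑ p, ∑ q, (α p * α q) * ((∑ a, f p a * f q a) * (∑ b, f p b * f q b)) := by
    have s1 : ∀ a, ∑ b, ∑ p, ∑ q, (α p * α q) * ((f p a * f q a) * (f p b * f q b)) =
        ∑ p, ∑ q, (α p * α q) * ((f p a * f q a) * ∑ b, f p b * f q b) := by
      intro a
      rw [Finset.sum_comm]
      refine Finset.sum_congr rfl fun p _ => ?_
      rw [Finset.sum_comm]
      refine Finset.sum_congr rfl fun q _ => ?_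
      rw [Finset.mul_sum, Finset.mul_sum]
    rw [Finset.sum_congr rfl fun a _ => s1 a, Finset.sum_comm]
    refine Finset.sum_congr rfl fun p _ => ?_
    rw [Finset.sum_comm]
    refine Finset.sum_congr rfl fun q _ => ?_
    rw [Finset.sum_mul, Finset.mul_sum]
  rw [e2]
  refine Finset.sum_congr rfl fun p _ => ?_
  rw [Finset.sum_eq_single p]
  · rw [h1, if_pos rfl]
    ring
  · intro q _ hq
    rw [h1, if_neg (Ne.symm hq)]
    ring
  · simp

end Pool.Agent.H51.EV
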