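import Pool.Agent.H31EE.Main
import Pool.Agent.H51.EV.Pt

/-!
# Einstein tensors in dimension six with a bound of the curvature operator of the second kind
-/

set_option autoImplicit false

open scoped BigOperators

namespace Pool.Agent.H51.EV

open Hopf6 Pool.Agent.W714.HE Pool.Agent.W714.ES Pool.Agent.H31EE

theorem ein_core2 {s : ℝ} (hs : 0 < s) {R : Ten} (hR : IsCurv R)
    (hE : ∀ a b, Rc R a b = if a = b then 5 else 0) (hS : Sec2 R (s - 1)) :
    135 + (36 - 44 * s) * ((nS R - 60) / 32) ≤ 135 / 5760 * gb R ∧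
      135 + 36 * ((nS R - 60) / 32) - 55 * s ^ 3 ≤ 135 / 5760 * gb R := by
  obtain ⟨ι, _, ⟨D⟩⟩ := exists_design
  have hJJ : D.av (mJJ R) = 5 + (nS R - 60) / 32 := by
    rw [D.av_JJ hR, nR_ein hE]
    ring
  constructor
  · have h1 : 0 ≤ D.av (fun x => ff R x + (mJJ R x * (-(36 - 44 * s))
        + (5 * (36 - 44 * s) - 135))) :=
      D.av_nonneg fun i => by
        have := (ff_ge hs hR hE (D.unit i) hS).1
        linarith
    have h2 : D.av (fun x => ff R x + (mJJ R x * (-(36 - 44 * s))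
        + (5 * (36 - 44 * s) - 135))) = D.av (ff R) + (D.av (mJJ R) * (-(36 - 44 * s))
          + (5 * (36 - 44 * s) - 135)) := by
      rw [Design.av_add, Design.av_add, Design.av_one, Design.av_mul]
    rw [h2, av_ff D hR hE, hJJ] at h1
    linarith
  · have h1 : 0 ≤ D.av (fun x => ff R x + (mJJ R x * (-36) + (180 - 135 + 55 * s ^ 3))) :=
      D.av_nonneg fun i => by
        have := (ff_ge hs hR hE (D.unit i) hS).2
        linarith
    have h2 : D.av (fun x => ff R x + (mJJ R x * (-36) + (180 - 135 + 55 * s ^ 3))) =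
        D.av (ff R) + (D.av (mJJ R) * (-36) + (180 - 135 + 55 * s ^ 3)) := by
      rw [Design.av_add, Design.av_add, Design.av_one, Design.av_mul]
    rw [h2, av_ff D hR hE, hJJ] at h1
    linarith

section
variable {V : Type*} [NormedAddCommGroup V] [InnerProductSpace ℝ V]

/-- The quadratic form of the curvature operator of the second kind at the two-tensor with the
components `h`: the sum of `R_{ijkl} h_{il} h_{jk}`. For the curvature tensor of constant curvature `c`
it is `c |h|²` for all traceless symmetric `h`. -/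
noncomputable def second (e : OrthonormalBasis (Fin 6) ℝ V) (R : V → V → V → V → ℝ)
    (h : Fin 6 → Fin 6 → ℝ) : ℝ :=
  ∑ i, ∑ j, ∑ k, ∑ l, R (e i) (e j) (e k) (e l) * (h i l * h j k)

/-- the curvature operator of the second kind is at least `b` on traceless symmetric tensors -/
def SecondGE (e : OrthonormalBasis (Fin 6) ℝ V) (R : V → V → V → V → ℝ) (b : ℝ) : Prop :=
  ∀ h : Fin 6 → Fin 6 → ℝ, (∀ i j, h i j = h j i) → ∑ i, h i i = 0 →
    b * ∑ i, ∑ j, h i j ^ 2 ≤ second e R h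

/-- the curvature operator of the second kind is at most `b` on traceless symmetric tensors -/
def SecondLE (e : OrthonormalBasis (Fin 6) ℝ V) (R : V → V → V → V → ℝ) (b : ℝ) : Prop :=
  ∀ h : Fin 6 → Fin 6 → ℝ, (∀ i j, h i j = h j i) → ∑ i, h i i = 0 →
    second e R h ≤ b * ∑ i, ∑ j, h i j ^ 2

variable (e : OrthonormalBasis (Fin 6) ℝ V) {R : V → V → V → V → ℝ}

theorem FB_second (hR : AlgCurv R) (t : ℝ) (h : T2) :
    FB (scl t (tn e R)) h h = -(t * second e R h) := by
  have hC := tn_curv e hR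
  have e1 : second e R h = ∑ i, ∑ j, ∑ k, ∑ l, tn e R i j k l * (h i l * h j k) := rfl
  rw [e1]
  unfold FB
  rw [Finset.mul_sum, ← Finset.sum_neg_distrib]
  refine Finset.sum_congr rfl fun a _ => ?_
  have e2 : ∑ b, ∑ c, ∑ d, scl t (tn e R) a c b d * h a b * h c d =
      ∑ c, ∑ d, ∑ b, scl t (tn e R) a c b d * h a b * h c d := by
    rw [Finset.sum_comm]
    exact Finset.sum_congr rfl fun c _ => Finset.sum_comm
  rw [e2, Finset.mul_sum, ← Finset.sum_neg_distrib]
  refine Finset.sum_congr rfl fun c _ => ?_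
  rw [Finset.mul_sum, ← Finset.sum_neg_distrib]
  refine Finset.sum_congr rfl fun d _ => ?_
  rw [Finset.mul_sum, ← Finset.sum_neg_distrib]
  refine Finset.sum_congr rfl fun b _ => ?_
  unfold scl
  rw [anti' hC a c d b]
  ring

theorem sec2_of (hR : AlgCurv R) {c δ : ℝ} (hc : 0 < c) (h : SecondGE e R (-(δ * c))) :
    Sec2 (scl c⁻¹ (tn e R)) δ := by
  intro k hk ht
  rw [FB_second e hR]
  have h1 := h k hk ht
  have hci : 0 < c⁻¹ := inv_pos.2 hc
  have h2 := mul_le_mul_of_nonneg_left h1 hci.le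
  have h3 : c⁻¹ * (-(δ * c) * ∑ i, ∑ j, k i j ^ 2) = -(δ * ∑ i, ∑ j, k i j ^ 2) := by
    field_simp
  linarith

/-- the lower bounds, positive case -/
theorem gbc_pos2 {δ : ℝ} (hd : -1 < δ) (hR : AlgCurv R) {c : ℝ} (hc : 0 < c)
    (hE : Einstein e R c) (h : SecondGE e R (-(δ * c))) :
    (1 - (2 + 11 * δ) / 1080 * (weylSq e R c / c ^ 2)) * roundGB c ≤ gbc e R ∧
      (1 + weylSq e R c / c ^ 2 / 120 - 11 / 27 * (1 + δ) ^ 3) * roundGB c ≤ gbc e R := by
  have hs2 : Sec2 (scl c⁻¹ (tn e R)) ((1 + δ) - 1) := by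
    rw [add_sub_cancel_left]
    exact sec2_of e hR hc h
  have h1 := ein_core2 (by linarith : (0 : ℝ) < 1 + δ) (scl_curv (tn_curv e hR) c⁻¹)
    (Rc_ein e hR hc hE) hs2
  rw [nS_weyl e hR hc hE, gb_scl] at h1
  have hc3 : 0 < c ^ 3 := by positivity
  have hpi := Real.pi_pos
  have e1 : gbc e R = 1 / ((8 * Real.pi) ^ 3 * 6) * gb (tn e R) := gbc_eq e R
  have e2 : gb (tn e R) = c ^ 3 * (c⁻¹ ^ 3 * gb (tn e R)) := by field_simp
  have key : ∀ u : ℝ, 135 * u ≤ 135 / 5760 * (c⁻¹ ^ 3 * gb (tn e R)) →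
      u * roundGB c ≤ gbc e R := by
    intro u hu
    have h2 : 5760 * u ≤ c⁻¹ ^ 3 * gb (tn e R) := by linarith
    have h3 : 1 / ((8 * Real.pi) ^ 3 * 6) * (c ^ 3 * (5760 * u)) = u * roundGB c := by
      unfold roundGB
      field_simp
      ring
    rw [← h3, e1, e2]
    exact mul_le_mul_of_nonneg_left (mul_le_mul_of_nonneg_left h2 hc3.le) (by positivity)
  refine ⟨key _ ?_, key _ ?_⟩
  · refine le_trans (le_of_eq ?_) h1.1
    ring
  · refine le_trans (le_of_eq ?_) h1.2
    ring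

/-- the upper bounds, negative case -/
theorem gbc_neg2 {δ : ℝ} (hd : -1 < δ) (hR : AlgCurv R) {c : ℝ} (hc : 0 < c)
    (hE : Einstein e R (-c)) (h : SecondLE e R (δ * c)) :
    gbc e R ≤ -((1 - (2 + 11 * δ) / 1080 * (weylSq e R (-c) / c ^ 2)) * roundGB c) ∧
      gbc e R ≤ -((1 + weylSq e R (-c) / c ^ 2 / 120 - 11 / 27 * (1 + δ) ^ 3) * roundGB c) := by
  have hE' : Einstein e (fun x y z w => - R x y z w) c := by
    intro v w
    have := hE v w
    rw [Finset.sum_neg_distrib, this]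
    ring
  have hS : SecondGE e (fun x y z w => - R x y z w) (-(δ * c)) := by
    intro k hk ht
    have h1 := h k hk ht
    have h2 : second e (fun x y z w => - R x y z w) k = -second e R k := by
      unfold second
      simp only [neg_mul, Finset.sum_neg_distrib]
    rw [h2]
    linarith
  have h1 := gbc_pos2 e hd (neg_curv hR) hc hE' hS
  rw [weylSq_neg] at h1
  have h2 : gbc e (fun x y z w => - R x y z w) = - gbc e R := by
    rw [gbc_eq, gbc_eq]
    have : tn e (fun x y z w => - R x y z w) = fun a b c d => - tn e R a b c d := rfl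
    rw [gb_neg]
    ring
  rw [h2] at h1
  exact ⟨by linarith [h1.1], by linarith [h1.2]⟩

/-- one of the two factors is at least the constant -/
theorem factor_two {δ t : ℝ} (ht : 0 ≤ t) :
    min 1 (1 + (1 + δ) ^ 2 / 3 - 11 / 27 * (1 + δ) ^ 3) ≤ 1 - (2 + 11 * δ) / 1080 * t ∨
      min 1 (1 + (1 + δ) ^ 2 / 3 - 11 / 27 * (1 + δ) ^ 3) ≤
        1 + t / 120 - 11 / 27 * (1 + δ) ^ 3 := by
  by_cases h : δ ≤ -(2 / 11)
  · left
    refine (min_le_left _ _).trans ?_
    have h1 : (2 + 11 * δ) / 1080 * t ≤ 0 :=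
      mul_nonpos_of_nonpos_of_nonneg (by linarith) ht
    linarith
  · push Not at h
    by_cases h2 : t ≤ 40 * (1 + δ) ^ 2
    · left
      refine (min_le_right _ _).trans ?_
      have h3 : (2 + 11 * δ) / 1080 * t ≤ (2 + 11 * δ) / 1080 * (40 * (1 + δ) ^ 2) :=
        mul_le_mul_of_nonneg_left h2 (by linarith)
      have h4 : 1 + (1 + δ) ^ 2 / 3 - 11 / 27 * (1 + δ) ^ 3 =
          1 - (2 + 11 * δ) / 1080 * (40 * (1 + δ) ^ 2) := by ring
      linarith
    · right
      push Not at h2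
      refine (min_le_right _ _).trans ?_
      linarith

/-- the combined bound -/
theorem factor_mul {δ t r g : ℝ} (ht : 0 ≤ t) (hr : 0 ≤ r)
    (h1 : (1 - (2 + 11 * δ) / 1080 * t) * r ≤ g)
    (h2 : (1 + t / 120 - 11 / 27 * (1 + δ) ^ 3) * r ≤ g) :
    min 1 (1 + (1 + δ) ^ 2 / 3 - 11 / 27 * (1 + δ) ^ 3) * r ≤ g := by
  rcases factor_two (δ := δ) ht with h | h
  · exact (mul_le_mul_of_nonneg_right h hr).trans h1
  · exact (mul_le_mul_of_nonneg_right h hr).trans h2

end

end Pool.Agent.H51.EV
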