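import Mathlib

/-!
# Five numbers with sum zero: the numerical inequalities
-/

set_option autoImplicit false

open scoped BigOperators

namespace Pool.Agent.H51.EV

theorem cube_ge (t : Fin 5 → ℝ) (hs : ∑ i, t i = 0) (c b : ℝ) (h : ∀ i, -c ≤ t i) :
    (2 * b - c) * (∑ i, t i ^ 2) - 5 * (c * b ^ 2) ≤ ∑ i, t i ^ 3 := by
  have h1 : 0 ≤ ∑ i, (t i + c) * (t i - b) ^ 2 :=
    Finset.sum_nonneg fun i _ => mul_nonneg (by linarith [h i]) (sq_nonneg _)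
  have h2 : ∑ i, (t i + c) * (t i - b) ^ 2 = ∑ i, t i ^ 3 - (2 * b - c) * (∑ i, t i ^ 2)
      + (b ^ 2 - 2 * b * c) * (∑ i, t i) + 5 * (c * b ^ 2) := by
    simp only [Fin.sum_univ_five]
    ring
  rw [h2, hs] at h1
  linarith

theorem sq_le_of_sum {n : ℕ} (t : Fin (n + 1) → ℝ) (hs : ∑ i, t i = 0) (i : Fin (n + 1)) :
    (n + 1 : ℝ) * t i ^ 2 ≤ n * ∑ j, t j ^ 2 := by
  have h1 : t i + ∑ j ∈ Finset.univ.erase i, t j = 0 := by
    rw [Finset.add_sum_erase _ _ (Finset.mem_univ i), hs]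
  have h2 : t i ^ 2 + ∑ j ∈ Finset.univ.erase i, t j ^ 2 = ∑ j, t j ^ 2 :=
    Finset.add_sum_erase _ (fun j => t j ^ 2) (Finset.mem_univ i)
  have h3 := sq_sum_le_card_mul_sum_sq (s := Finset.univ.erase i) (f := t)
  rw [Finset.card_erase_of_mem (Finset.mem_univ i), Finset.card_univ, Fintype.card_fin] at h3
  simp only [Nat.add_sub_cancel] at h3
  have h4 : ∑ j ∈ Finset.univ.erase i, t j = -t i := by linarith
  rw [h4] at h3
  have h5 : ∑ j ∈ Finset.univ.erase i, t j ^ 2 = ∑ j, t j ^ 2 - t i ^ 2 := by linarith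
  rw [h5] at h3
  nlinarith

theorem low5 (t : Fin 5 → ℝ) (hs : ∑ i, t i = 0) {b : ℝ} (hb : 0 ≤ b)
    (h2 : ∑ i, t i ^ 2 = 20 * b ^ 2) (i : Fin 5) : -(4 * b) ≤ t i := by
  have h := sq_le_of_sum t hs i
  rw [h2] at h
  have h3 : t i ^ 2 ≤ (4 * b) ^ 2 := by
    push_cast at h
    nlinarith
  exact (abs_le_of_sq_le_sq' h3 (by linarith)).1

/-- the inequality without vectors -/
theorem num2 (t : Fin 5 → ℝ) (hs : ∑ i, t i = 0) (h : ∀ i, -1 ≤ t i) :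
    0 ≤ 20 * (∑ i, t i ^ 3) - 8 * (∑ i, t i ^ 2) + 48 / 5 * (∑ i, t i ^ 2) ^ 2 + 55 / 4 := by
  set S : ℝ := ∑ i, t i ^ 2 with hS
  have hS0 : 0 ≤ S := Finset.sum_nonneg fun i _ => sq_nonneg _
  by_cases hc : 5 / 4 ≤ S
  · have h1 := cube_ge t hs 1 (1 / 4) h
    rw [← hS] at h1
    nlinarith [mul_nonneg (sub_nonneg.2 hc) (show (0 : ℝ) ≤ 48 / 5 * S - 6 by linarith)]
  · push Not at hc
    set b : ℝ := Real.sqrt (S / 20) with hb
    have hb0 : 0 ≤ b := Real.sqrt_nonneg _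
    have hb2 : b ^ 2 = S / 20 := Real.sq_sqrt (by positivity)
    have hSb : S = 20 * b ^ 2 := by linarith
    have hb1 : b ≤ 1 / 4 := by nlinarith
    have h1 := cube_ge t hs (4 * b) b (low5 t hs hb0 (by rw [← hS, hSb]))
    rw [← hS, hSb] at h1
    rw [hSb]
    have h3 : 0 ≤ (1 - 4 * b) * (55 / 4 + 55 * b + 60 * b ^ 2 - 960 * b ^ 3) := by
      refine mul_nonneg (by linarith) ?_
      nlinarith [mul_nonneg hb0 (sub_nonneg.2 hb1), mul_nonneg (sq_nonneg b) (sub_nonneg.2 hb1)]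
    nlinarith

theorem cube_ge4 (t : Fin 4 → ℝ) (hs : ∑ i, t i = 0) :
    ∀ b : ℝ, 0 ≤ b → ∑ i, t i ^ 2 = 12 * b ^ 2 → -(24 * b ^ 3) ≤ ∑ i, t i ^ 3 := by
  intro b hb h2
  have hl : ∀ i, -(3 * b) ≤ t i := by
    intro i
    have h := sq_le_of_sum t hs i
    rw [h2] at h
    have h3 : t i ^ 2 ≤ (3 * b) ^ 2 := by
      push_cast at h
      nlinarith
    exact (abs_le_of_sq_le_sq' h3 (by linarith)).1
  have h1 : 0 ≤ ∑ i, (t i + 3 * b) * (t i - b) ^ 2 :=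
    Finset.sum_nonneg fun i _ => mul_nonneg (by linarith [hl i]) (sq_nonneg _)
  have h3 : ∑ i, (t i + 3 * b) * (t i - b) ^ 2 = ∑ i, t i ^ 3 + b * (∑ i, t i ^ 2)
      - 5 * b ^ 2 * (∑ i, t i) + 12 * b ^ 3 := by
    simp only [Fin.sum_univ_four]
    ring
  rw [h3, hs, h2] at h1
  linarith

end Pool.Agent.H51.EV
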