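import Pool.Agent.H51.EV.Num

/-!
# Five numbers and five vectors: the inequality with vectors
-/

set_option autoImplicit false

open scoped BigOperators

namespace Pool.Agent.H51.EV

variable {E : Type*} [NormedAddCommGroup E] [InnerProductSpace ℝ E]

/-- a weighted triangle inequality -/
theorem tri (p g : E) (c l : ℝ) :
    l * c ^ 2 * ‖g‖ ^ 2 ≤ (1 + l) * ‖p - c • g‖ ^ 2 + l * (1 + l) * ‖p‖ ^ 2 := by
  have h1 : 0 ≤ ‖(1 + l) • p - c • g‖ ^ 2 := sq_nonneg _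
  have h2 : ‖(1 + l) • p - c • g‖ ^ 2 =
      (1 + l) ^ 2 * ‖p‖ ^ 2 - 2 * (1 + l) * c * inner ℝ p g + c ^ 2 * ‖g‖ ^ 2 := by
    rw [norm_sub_sq_real, norm_smul, norm_smul, inner_smul_left, inner_smul_right, mul_pow,
      mul_pow, Real.norm_eq_abs, Real.norm_eq_abs, sq_abs, sq_abs]
    simp only [conj_trivial]
    ring
  have h3 : ‖p - c • g‖ ^ 2 = ‖p‖ ^ 2 - 2 * c * inner ℝ p g + c ^ 2 * ‖g‖ ^ 2 := by
    rw [norm_sub_sq_real, norm_smul, inner_smul_right, mul_pow, Real.norm_eq_abs, sq_abs]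
    ring
  rw [h2] at h1
  rw [h3]
  nlinarith

theorem cs4 (ε : Fin 4 → ℝ) (b : Fin 4 → E) :
    ‖∑ j, ε j • b j‖ ^ 2 ≤ (∑ j, ε j ^ 2) * ∑ j, ‖b j‖ ^ 2 := by
  have h1 : ‖∑ j, ε j • b j‖ ≤ ∑ j, |ε j| * ‖b j‖ := by
    refine (norm_sum_le _ _).trans (le_of_eq ?_)
    exact Finset.sum_congr rfl fun j _ => by rw [norm_smul, Real.norm_eq_abs]
  have h2 : (∑ j, |ε j| * ‖b j‖) ^ 2 ≤ (∑ j, |ε j| ^ 2) * ∑ j, ‖b j‖ ^ 2 :=
    Finset.sum_mul_sq_le_sq_mul_sq _ _ _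
  simp only [sq_abs] at h2
  exact (pow_le_pow_left₀ (norm_nonneg _) h1 2).trans h2

theorem aux1 (m : ℝ) : 7 / 2 ≤ 105 / 11 - 135 / 11 * m + 312 / 11 * m ^ 2 := by
  nlinarith [sq_nonneg (m - 1 / 4)]

theorem aux2 (b : ℝ) : 0 ≤ 7 / 2 - 40 * b + 576 / 5 * b ^ 2 := by
  nlinarith [sq_nonneg (b - 25 / 144)]

theorem aux3 {m b : ℝ} (hm : 3 / 20 ≤ m) :
    0 ≤ (3 + 15 * m + 24 * m ^ 2) - 40 * b + 576 / 5 * b ^ 2 := by
  nlinarith [aux2 b]

theorem aux4 {e2 b m l τ : ℝ} (he : e2 = 12 * b ^ 2) (hτ : -(24 * b ^ 3) ≤ τ) (hl0 : 0 ≤ l)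
    (h7 : 0 ≤ 12 * b ^ 2 * ((3 + 15 * m + 24 * m ^ 2 - 8 * l * (3 - m / 2)) - 40 * b
          + 576 / 5 * b ^ 2)) :
    0 ≤ e2 * (3 + 15 * m + 24 * m ^ 2) + 48 / 5 * e2 ^ 2 + 20 * τ
          - 8 * (l * (e2 * (3 - m / 2 - 6 / 5 * e2))) := by
  have h10 : 12 * b ^ 2 * ((3 + 15 * m + 24 * m ^ 2 - 8 * l * (3 - m / 2)) - 40 * b
      + 576 / 5 * b ^ 2) = e2 * (3 + 15 * m + 24 * m ^ 2) + 48 / 5 * e2 ^ 2
        - 8 * l * e2 * (3 - m / 2) - 480 * b ^ 3 := by
    rw [he]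
    ring
  have h11 : 0 ≤ 8 * l * (6 / 5) * e2 ^ 2 := by positivity
  rw [h10] at h7
  have h12 : e2 * (3 + 15 * m + 24 * m ^ 2) + 48 / 5 * e2 ^ 2 + 20 * τ
          - 8 * (l * (e2 * (3 - m / 2 - 6 / 5 * e2))) =
      (e2 * (3 + 15 * m + 24 * m ^ 2) + 48 / 5 * e2 ^ 2
        - 8 * l * e2 * (3 - m / 2) - 480 * b ^ 3) + 8 * l * (6 / 5) * e2 ^ 2
        + 20 * (τ + 24 * b ^ 3) := by ring
  rw [h12]
  linarith

/-- the last number is the smallest one -/
theorem key_last (t : Fin 5 → ℝ) (hs : ∑ i, t i = 0) (h : ∀ i, -1 ≤ t i)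
    (hm : ∀ i, t (Fin.last 4) ≤ t i) (g : Fin 5 → E) (hg : ∑ i, g i = 0)
    (hn : ∀ i, ‖g i‖ ^ 2 = (1 + t i) * (4 - 6 * t i) / 5) :
    0 ≤ 20 * (∑ i, t i ^ 3) + 3 * (∑ i, t i ^ 2) + 48 / 5 * (∑ i, t i ^ 2) ^ 2
      + 8 * ‖∑ i, t i • g i‖ ^ 2 := by
  set m : ℝ := -t (Fin.last 4) with hmd
  have htl : t (Fin.last 4) = -m := by rw [hmd, neg_neg]
  have hm1 : m ≤ 1 := by linarith [h (Fin.last 4)]
  have hm0 : 0 ≤ m := by
    by_contra hc
    push Not at hc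
    have : 0 < ∑ i, t i := Finset.sum_pos (fun i _ => by linarith [hm i]) ⟨0, Finset.mem_univ _⟩
    linarith
  set S2 : ℝ := ∑ i, t i ^ 2 with hS2
  set S3 : ℝ := ∑ i, t i ^ 3 with hS3
  have hS20 : 0 ≤ S2 := Finset.sum_nonneg fun i _ => sq_nonneg _
  set U : ℝ := ‖∑ i, t i • g i‖ ^ 2 with hU
  have hU0 : 0 ≤ U := sq_nonneg _
  by_cases hA : m ≤ 3 / 20
  · have h1 : 0 ≤ ∑ i, (t i + m) * t i ^ 2 :=
      Finset.sum_nonneg fun i _ => mul_nonneg (by linarith [hm i]) (sq_nonneg _)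
    have h2 : ∑ i, (t i + m) * t i ^ 2 = S3 + m * S2 := by
      rw [hS3, hS2, Finset.mul_sum, ← Finset.sum_add_distrib]
      exact Finset.sum_congr rfl fun i _ => by ring
    rw [h2] at h1
    nlinarith [mul_nonneg hS20 (sub_nonneg.2 hA), sq_nonneg S2]
  · push Not at hA
    set ε : Fin 4 → ℝ := fun j => t (Fin.castSucc j) - m / 4 with hε
    set gl : E := g (Fin.last 4) with hgl
    set e2 : ℝ := ∑ j, ε j ^ 2 with he2
    set τ : ℝ := ∑ j, ε j ^ 3 with hτ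
    have hts : ∀ j, t (Fin.castSucc j) = m / 4 + ε j := fun j => by rw [hε]; ring
    have hε0 : ∑ j, ε j = 0 := by
      rw [Fin.sum_univ_castSucc, htl] at hs
      simp only [hts, Finset.sum_add_distrib] at hs
      simp only [Finset.sum_const, Finset.card_univ, Fintype.card_fin, nsmul_eq_mul] at hs
      push_cast at hs
      linarith
    have hS2e : S2 = 5 / 4 * m ^ 2 + e2 := by
      rw [hS2, Fin.sum_univ_castSucc, htl]
      have : ∀ j, t (Fin.castSucc j) ^ 2 = m ^ 2 / 16 + (m / 2) * ε j + ε j ^ 2 := fun j => by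
        rw [hts]; ring
      simp only [this, Finset.sum_add_distrib, ← Finset.mul_sum, hε0, ← he2]
      simp only [Finset.sum_const, Finset.card_univ, Fintype.card_fin, nsmul_eq_mul]
      push_cast
      ring
    have hS3e : S3 = -(15 / 16) * m ^ 3 + 3 / 4 * m * e2 + τ := by
      rw [hS3, Fin.sum_univ_castSucc, htl]
      have : ∀ j, t (Fin.castSucc j) ^ 3 = m ^ 3 / 64 + (3 * m ^ 2 / 16) * ε j
          + (3 * m / 4) * ε j ^ 2 + ε j ^ 3 := fun j => by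
        rw [hts]; ring
      simp only [this, Finset.sum_add_distrib, ← Finset.mul_sum, hε0, ← he2, ← hτ]
      simp only [Finset.sum_const, Finset.card_univ, Fintype.card_fin, nsmul_eq_mul]
      push_cast
      ring
    have he20 : 0 ≤ e2 := Finset.sum_nonneg fun i _ => sq_nonneg _
    set b : ℝ := Real.sqrt (e2 / 12) with hb
    have hb0 : 0 ≤ b := Real.sqrt_nonneg _
    have hb2 : b ^ 2 = e2 / 12 := Real.sq_sqrt (by positivity)
    have he2b : e2 = 12 * b ^ 2 := by linarith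
    have hτb : -(24 * b ^ 3) ≤ τ := cube_ge4 ε hε0 b hb0 he2b
    have hexp : 20 * S3 + 3 * S2 + 48 / 5 * S2 ^ 2 = 15 / 4 * m ^ 2 * (1 - m) * (1 - 4 * m)
        + e2 * (3 + 15 * m + 24 * m ^ 2) + 48 / 5 * e2 ^ 2 + 20 * τ := by
      rw [hS2e, hS3e]
      ring
    rw [hexp]
    by_cases hB : m ≤ 1 / 4
    · have h1 : 0 ≤ 15 / 4 * m ^ 2 * (1 - m) * (1 - 4 * m) :=
        mul_nonneg (mul_nonneg (by positivity) (by linarith)) (by linarith)
      have h2 : 0 ≤ 12 * b ^ 2 * ((3 + 15 * m + 24 * m ^ 2) - 40 * b + 576 / 5 * b ^ 2) := by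
        exact mul_nonneg (by positivity) (aux3 hA.le)
      have h3 : e2 * (3 + 15 * m + 24 * m ^ 2) + 48 / 5 * e2 ^ 2 + 20 * τ =
          12 * b ^ 2 * ((3 + 15 * m + 24 * m ^ 2) - 40 * b + 576 / 5 * b ^ 2)
            + 20 * (τ + 24 * b ^ 3) := by
        rw [he2b]
        ring
      linarith
    · push Not at hB
      set l : ℝ := (12 * m - 3) / 11 with hl
      have hl0 : 0 ≤ l := by rw [hl]; linarith
      set p : E := ∑ j, ε j • g (Fin.castSucc j) with hp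
      have hgs : ∑ j : Fin 4, g (Fin.castSucc j) = -gl := by
        rw [Fin.sum_univ_castSucc] at hg
        exact eq_neg_of_add_eq_zero_left hg
      have hu : ∑ i, t i • g i = p - (5 / 4 * m) • gl := by
        rw [Fin.sum_univ_castSucc, htl]
        have : ∀ j : Fin 4, t (Fin.castSucc j) • g (Fin.castSucc j) =
            (m / 4) • g (Fin.castSucc j) + ε j • g (Fin.castSucc j) := fun j => by
          rw [hts, add_smul]
        simp only [this, Finset.sum_add_distrib, ← Finset.smul_sum, hgs, ← hp]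
        rw [← hgl]
        module
      have hp' : p = ∑ j, ε j • (g (Fin.castSucc j) + (1 / 4 : ℝ) • gl) := by
        simp only [smul_add, Finset.sum_add_distrib, ← Finset.sum_smul, hε0]
        simp [hp]
      have hq : ∑ j : Fin 4, ‖g (Fin.castSucc j) + (1 / 4 : ℝ) • gl‖ ^ 2 =
          3 - m / 2 - 6 / 5 * e2 := by
        have h1 : ∀ j : Fin 4, ‖g (Fin.castSucc j) + (1 / 4 : ℝ) • gl‖ ^ 2 =
            ‖g (Fin.castSucc j)‖ ^ 2 + 1 / 2 * inner ℝ (g (Fin.castSucc j)) gl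
              + 1 / 16 * ‖gl‖ ^ 2 := by
          intro j
          rw [norm_add_sq_real, inner_smul_right, norm_smul, mul_pow]
          norm_num
          ring
        simp only [h1, Finset.sum_add_distrib, ← Finset.mul_sum, ← sum_inner, hgs]
        rw [inner_neg_left, real_inner_self_eq_norm_sq]
        have h2 : ∀ j : Fin 4, ‖g (Fin.castSucc j)‖ ^ 2 =
            (4 - m / 2 - 3 / 8 * m ^ 2) / 5 - (2 + 3 * m) / 5 * ε j - 6 / 5 * ε j ^ 2 := by
          intro j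
          rw [hn, hts]
          ring
        have h3 : ‖gl‖ ^ 2 = (1 - m) * (4 + 6 * m) / 5 := by
          rw [hgl, hn, htl]
          ring
        simp only [h2, h3, Finset.sum_sub_distrib, ← Finset.mul_sum, hε0, ← he2]
        simp only [Finset.sum_const, Finset.card_univ, Fintype.card_fin, nsmul_eq_mul]
        push_cast
        ring
      have hP : ‖p‖ ^ 2 ≤ e2 * (3 - m / 2 - 6 / 5 * e2) := by
        rw [hp', ← hq]
        exact cs4 _ _
      have h3 : ‖gl‖ ^ 2 = (1 - m) * (4 + 6 * m) / 5 := by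
        rw [hgl, hn, htl]
        ring
      have ht := tri p gl (5 / 4 * m) l
      rw [← hu, h3, ← hU] at ht
      have hL : 1 + l = (12 * m + 8) / 11 := by rw [hl]; ring
      have hLpos : 0 < 1 + l := by linarith
      have hU1 : 15 / 32 * m ^ 2 * (1 - m) * (4 * m - 1) - l * ‖p‖ ^ 2 ≤ U := by
        have h5 : (1 + l) * (15 / 32 * m ^ 2 * (1 - m) * (4 * m - 1) - l * ‖p‖ ^ 2) ≤
            (1 + l) * U := by
          have h6 : l * (5 / 4 * m) ^ 2 * ((1 - m) * (4 + 6 * m) / 5) =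
              (1 + l) * (15 / 32 * m ^ 2 * (1 - m) * (4 * m - 1)) := by
            rw [hL, hl]
            ring
          rw [h6] at ht
          linarith
        exact le_of_mul_le_mul_left h5 hLpos
      have hU2 : 15 / 32 * m ^ 2 * (1 - m) * (4 * m - 1)
          - l * (e2 * (3 - m / 2 - 6 / 5 * e2)) ≤ U := by
        have := mul_le_mul_of_nonneg_left hP hl0
        linarith
      have h7 : 0 ≤ 12 * b ^ 2 * ((3 + 15 * m + 24 * m ^ 2 - 8 * l * (3 - m / 2)) - 40 * b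
          + 576 / 5 * b ^ 2) := by
        refine mul_nonneg (by positivity) ?_
        have h71 : 3 + 15 * m + 24 * m ^ 2 - 8 * l * (3 - m / 2) =
            105 / 11 - 135 / 11 * m + 312 / 11 * m ^ 2 := by
          rw [hl]
          ring
        rw [h71]
        linarith [aux1 m, aux2 b]
      have h9 := aux4 he2b hτb hl0 h7
      linarith

/-- the inequality with vectors -/
theorem key (t : Fin 5 → ℝ) (hs : ∑ i, t i = 0) (h : ∀ i, -1 ≤ t i)
    (g : Fin 5 → E) (hg : ∑ i, g i = 0)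
    (hn : ∀ i, ‖g i‖ ^ 2 = (1 + t i) * (4 - 6 * t i) / 5) :
    0 ≤ 20 * (∑ i, t i ^ 3) + 3 * (∑ i, t i ^ 2) + 48 / 5 * (∑ i, t i ^ 2) ^ 2
      + 8 * ‖∑ i, t i • g i‖ ^ 2 := by
  obtain ⟨k, -, hk⟩ := Finset.exists_min_image Finset.univ t ⟨0, Finset.mem_univ _⟩
  let σ : Equiv.Perm (Fin 5) := Equiv.swap k (Fin.last 4)
  have hσ : σ (Fin.last 4) = k := Equiv.swap_apply_right _ _
  have e1 : ∀ f : Fin 5 → ℝ, ∑ i, f (σ i) = ∑ i, f i := fun f => Equiv.sum_comp σ f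
  have e2 : ∀ f : Fin 5 → E, ∑ i, f (σ i) = ∑ i, f i := fun f => Equiv.sum_comp σ f
  have := key_last (fun i => t (σ i)) (by rw [e1 t, hs]) (fun i => h _)
    (fun i => by simp only [hσ]; exact hk _ (Finset.mem_univ _)) (fun i => g (σ i))
    (by rw [e2 g, hg]) (fun i => hn _)
  rw [e1 (fun i => t i ^ 3), e1 (fun i => t i ^ 2), e2 (fun i => t i • g i)] at this
  exact this

end Pool.Agent.H51.EV
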